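import Pool.Agent.H.MP_63ef02_al.K

namespace Pool.Agent.Results.MP_63ef02_al.NotSpecht

/-- T-ideals. For `u = false`: T-ideals of the free algebra without constant terms (ideals all of
whose elements have constant term zero, stable under all substitutions of polynomials without
constant term). For `u = true`: ideals of the free unital algebra stable under all its
endomorphisms. -/
def IsTIdeal (F : Type) [Field F] (u : Bool) (J : TwoSidedIdeal (FreeAlgebra F ℕ)) : Prop :=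
  (u = true ∨ ∀ f ∈ J, FreeAlgebra.algebraMapInv f = 0) ∧
    ∀ ψ : FreeAlgebra F ℕ →ₐ[F] FreeAlgebra F ℕ,
      (u = true ∨ ∀ i, FreeAlgebra.algebraMapInv (ψ (FreeAlgebra.ι F i)) = 0) →
        ∀ g ∈ J, ψ g ∈ J

/-- Every T-ideal containing all identities of the matrix algebra is generated, as a T-ideal, by a
finite set. -/
def Specht (F : Type) [Field F] (u : Bool) (n : ℕ) : Prop :=
  ∀ I : TwoSidedIdeal (FreeAlgebra F ℕ), IsTIdeal F u I →
    (∀ f : FreeAlgebra F ℕ,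
      (∀ φ : ℕ → Matrix (Fin n) (Fin n) F, FreeAlgebra.lift F φ f = 0) → f ∈ I) →
    ∃ S : Finset (FreeAlgebra F ℕ), ∀ f : FreeAlgebra F ℕ,
      f ∈ I ↔ ∀ J : TwoSidedIdeal (FreeAlgebra F ℕ), IsTIdeal F u J → (∀ g ∈ S, g ∈ J) → f ∈ J

theorem not_specht (u : Bool) (F : Type) [Field F] [Infinite F] [CharP F 3] (n : ℕ)
    (hn : 21 ≤ n) : ¬ Specht F u n := by
  intro h
  have h3 : (3 : F) = 0 := by exact_mod_cast CharP.cast_eq_zero F 3
  obtain ⟨I, h1, h2, h4, h5⟩ := Pool.Agent.H.MP_63ef02_al.core h3 hn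
  obtain ⟨S, hS⟩ := h I ⟨Or.inr h4, fun ψ _ => h1 ψ⟩ h2
  obtain ⟨J, j1, j2, j3, f, hf, hJ⟩ := h5 S fun g hg => (hS g).2 fun J _ hJ => hJ g hg
  exact hJ ((hS f).1 hf J ⟨Or.inr j3, fun ψ _ => j2 ψ⟩ j1)

theorem result : ∀ u : Bool,
    (¬ ∀ n : ℕ, 1 ≤ n → ∀ (F : Type) [Field F] (p : ℕ), p.Prime → CharP F p → Specht F u n) ∧
    ∀ (F : Type) [Field F] [Infinite F] [CharP F 3] (n : ℕ), 21 ≤ n → ¬ Specht F u n := by
  intro u
  refine ⟨fun h => ?_, not_specht u⟩
  have : Fact (Nat.Prime 3) := ⟨Nat.prime_three⟩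
  exact not_specht u (AlgebraicClosure (ZMod 3)) 21 le_rfl
    (h 21 (by norm_num) _ 3 Nat.prime_three inferInstance)

end Pool.Agent.Results.MP_63ef02_al.NotSpecht
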